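import Pool.Agent.Helper88.QT.St2
import Pool.Agent.Helper85.QT.St1

/-!
# Project QT, module WSM: the sum over the passages
-/

set_option autoImplicit false

open MeasureTheory Matrix Set Topology
open scoped ENNReal ComplexConjugate

namespace Pool.Agent.Helper51.QT

open Pool.Agent.Helper88.QT Pool.Agent.Helper85.QT Pool.Agent.Helper86.QA

private lemma geo_eq {c x : ℝ} (hc : 0 ≤ c) (hx0 : 0 ≤ x) (hx1 : x < 1) :
    ∑' j : ℕ, ENNReal.ofReal (c * x ^ j) = ENNReal.ofReal (c / (1 - x)) := by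
  rw [← ENNReal.ofReal_tsum_of_nonneg (fun j => mul_nonneg hc (pow_nonneg hx0 j))
    ((summable_geometric_of_lt_one hx0 hx1).mul_left c), tsum_mul_left,
    tsum_geometric_of_lt_one hx0 hx1, div_eq_mul_inv]

private lemma fin_le {ι : Type} (A : Set ι) (hA : A.Finite) {K c : ℝ} (hK : (A.ncard : ℝ) ≤ K)
    (hc : 0 ≤ c) (F : ι → ℝ≥0∞) (h1 : ∀ i ∈ A, F i ≤ ENNReal.ofReal c) (h2 : ∀ i, i ∉ A → F i = 0) :
    ∑' i, F i ≤ ENNReal.ofReal (K * c) := by
  classical
  have e1 : ∑' i, F i = ∑ i ∈ hA.toFinset, F i := by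
    apply tsum_eq_sum
    intro i hi
    apply h2
    simpa using hi
  rw [e1]
  have e2 : ∑ i ∈ hA.toFinset, F i ≤ hA.toFinset.card • ENNReal.ofReal c := by
    apply Finset.sum_le_card_nsmul
    intro i hi
    apply h1
    simpa using hi
  refine e2.trans ?_
  rw [← Set.ncard_eq_toFinset_card A hA, nsmul_eq_mul]
  have h0 : 0 ≤ (A.ncard : ℝ) := Nat.cast_nonneg _
  have e3 : ((A.ncard : ℕ) : ℝ≥0∞) = ENNReal.ofReal (A.ncard : ℝ) := (ENNReal.ofReal_natCast _).symm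
  rw [e3, ← ENNReal.ofReal_mul h0]
  exact ENNReal.ofReal_le_ofReal (mul_le_mul_of_nonneg_right hK hc)

private lemma two_le (U r : ℝ) (hr : 0 < r) (hr1 : r ≤ 1) :
    ∑' n : ℤ, ENNReal.ofReal (Real.exp (-|U - n * r| / 2)) ≤ ENNReal.ofReal (8 / r) := by
  set x : ℝ := Real.exp (-(r / 2)) with hx
  have hx0 : 0 ≤ x := (Real.exp_pos _).le
  have hx1 : x < 1 := by
    rw [hx, Real.exp_lt_one_iff]
    linarith
  have hgap : r / 4 ≤ 1 - x := by
    have h1 : 1 + r / 2 ≤ Real.exp (r / 2) := by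
      have := Real.add_one_le_exp (r / 2)
      linarith
    have h2 : x * Real.exp (r / 2) = 1 := by
      rw [hx, ← Real.exp_add]
      simp
    have h3 : x * (1 + r / 2) ≤ 1 := (mul_le_mul_of_nonneg_left h1 hx0).trans h2.le
    nlinarith
  have hpow : ∀ k : ℕ, x ^ k = Real.exp (-(k * r) / 2) := by
    intro k
    rw [hx, ← Real.exp_nat_mul]
    congr 1
    ring
  set n0 : ℤ := ⌊U / r⌋ with hn0
  have hf1 : (n0 : ℝ) * r ≤ U := by
    have := Int.floor_le (U / r)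
    rw [← hn0] at this
    rwa [le_div_iff₀ hr] at this
  have hf2 : U ≤ ((n0 : ℝ) + 1) * r := by
    have := (Int.lt_floor_add_one (U / r)).le
    rw [← hn0] at this
    rwa [div_le_iff₀ hr] at this
  have e1 : ∑' n : ℤ, ENNReal.ofReal (Real.exp (-|U - n * r| / 2)) =
      ∑' n : ℤ, ENNReal.ofReal (Real.exp (-|U - ((n + (n0 + 1) : ℤ) : ℝ) * r| / 2)) :=
    ((Equiv.addRight (n0 + 1)).tsum_eq
      (fun n : ℤ => ENNReal.ofReal (Real.exp (-|U - n * r| / 2)))).symm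
  rw [e1, tsum_of_nat_of_neg_add_one ENNReal.summable ENNReal.summable]
  have b1 : ∑' n : ℕ, ENNReal.ofReal (Real.exp (-|U - (((n : ℤ) + (n0 + 1) : ℤ) : ℝ) * r| / 2)) ≤
      ∑' n : ℕ, ENNReal.ofReal (1 * x ^ n) := by
    apply ENNReal.tsum_le_tsum
    intro n
    apply ENNReal.ofReal_le_ofReal
    rw [one_mul, hpow]
    apply Real.exp_le_exp.2
    have h1 : (n : ℝ) * r ≤ |U - (((n : ℤ) + (n0 + 1) : ℤ) : ℝ) * r| := by
      refine le_trans ?_ (neg_le_abs _)
      push_cast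
      linarith
    linarith
  have b2 : ∑' n : ℕ, ENNReal.ofReal (Real.exp (-|U - ((-((n : ℤ) + 1) + (n0 + 1) : ℤ) : ℝ) * r| / 2)) ≤
      ∑' n : ℕ, ENNReal.ofReal (1 * x ^ n) := by
    apply ENNReal.tsum_le_tsum
    intro n
    apply ENNReal.ofReal_le_ofReal
    rw [one_mul, hpow]
    apply Real.exp_le_exp.2
    have h1 : (n : ℝ) * r ≤ |U - ((-((n : ℤ) + 1) + (n0 + 1) : ℤ) : ℝ) * r| := by
      refine le_trans ?_ (le_abs_self _)
      push_cast
      linarith
    linarith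
  rw [geo_eq zero_le_one hx0 hx1] at b1 b2
  refine (add_le_add b1 b2).trans ?_
  have hpos : 0 < 1 - x := by linarith
  rw [← ENNReal.ofReal_add (by positivity) (by positivity)]
  apply ENNReal.ofReal_le_ofReal
  have h1 : 1 / (1 - x) ≤ 4 / r := by
    rw [div_le_div_iff₀ hpos hr]
    linarith
  have h2 : 8 / r = 4 / r + 4 / r := by ring
  rw [h2]
  exact add_le_add h1 h1

/-- the exponential factor -/
private lemma exp_fac {q v : ℝ} (hq : 0 ≤ q) :
    Real.exp (min 1 q * (1 + |v|) / 4) - 1 ≤ 2 * min 1 q * Real.exp (|v| / 2) := by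
  have hv : 0 ≤ |v| := abs_nonneg v
  set μ := min 1 q with hμ
  have hμ0 : 0 ≤ μ := le_min zero_le_one hq
  have hμ1 : μ ≤ 1 := min_le_left _ _
  set y := (1 + |v|) / 4 with hy
  have hy0 : 0 ≤ y := by positivity
  have e0 : μ * (1 + |v|) / 4 = μ * y := by rw [hy]; ring
  rw [e0]
  have h1 : Real.exp (μ * y) - 1 ≤ μ * y * Real.exp (μ * y) := by
    have h := Real.add_one_le_exp (-(μ * y))
    have h2 : Real.exp (-(μ * y)) * Real.exp (μ * y) = 1 := by
      rw [← Real.exp_add]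
      simp
    have h3 := mul_le_mul_of_nonneg_right h (Real.exp_pos (μ * y)).le
    rw [h2] at h3
    linarith
  have h2 : Real.exp (μ * y) ≤ Real.exp y := Real.exp_le_exp.2 (by nlinarith)
  have h3 : y ≤ Real.exp y := by
    have := Real.add_one_le_exp y
    linarith
  have h4 : Real.exp y * Real.exp y ≤ 2 * Real.exp (|v| / 2) := by
    have e1 : Real.exp y * Real.exp y = Real.exp (1 / 2) * Real.exp (|v| / 2) := by
      rw [← Real.exp_add, ← Real.exp_add]
      congr 1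
      rw [hy]
      ring
    rw [e1]
    have h5 : Real.exp (1 / 2) ≤ 2 := by
      have h6 := Real.exp_one_lt_d9
      have h7 : Real.exp (1 / 2) * Real.exp (1 / 2) = Real.exp 1 := by
        rw [← Real.exp_add]
        norm_num
      have h8 := Real.exp_pos (1 / 2)
      nlinarith
    exact mul_le_mul_of_nonneg_right h5 (Real.exp_pos _).le
  calc Real.exp (μ * y) - 1 ≤ μ * y * Real.exp (μ * y) := h1
    _ ≤ μ * y * Real.exp y := mul_le_mul_of_nonneg_left h2 (by positivity)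
    _ = μ * (y * Real.exp y) := by ring
    _ ≤ μ * (Real.exp y * Real.exp y) :=
        mul_le_mul_of_nonneg_left (mul_le_mul_of_nonneg_right h3 (Real.exp_pos _).le) hμ0
    _ ≤ μ * (2 * Real.exp (|v| / 2)) := mul_le_mul_of_nonneg_left h4 hμ0
    _ = 2 * μ * Real.exp (|v| / 2) := by ring

private lemma exp_fac1 {q v : ℝ} (hq : 0 ≤ q) (hv : |v| ≤ 1) :
    Real.exp (min 1 q * (1 + |v|) / 4) - 1 ≤ 4 * min 1 q := by
  refine (exp_fac hq).trans ?_
  have hμ0 : 0 ≤ min 1 q := le_min zero_le_one hq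
  have h5 : Real.exp (|v| / 2) ≤ 2 := by
    have h5' : Real.exp (|v| / 2) ≤ Real.exp (1 / 2) := Real.exp_le_exp.2 (by linarith)
    have h6 := Real.exp_one_lt_d9
    have h7 : Real.exp (1 / 2) * Real.exp (1 / 2) = Real.exp 1 := by
      rw [← Real.exp_add]
      norm_num
    have h8 := Real.exp_pos (1 / 2)
    nlinarith
  have := mul_le_mul_of_nonneg_left h5 (by positivity : 0 ≤ 2 * min 1 q)
  linarith

private lemma inv_le {c s : ℝ} (hc : 1 ≤ c) (hs : 1 ≤ s) : c ^ (-s) ≤ 1 / c := by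
  have h1 : c ^ (-s) ≤ c ^ (-1 : ℝ) := Real.rpow_le_rpow_of_exponent_le hc (by linarith)
  rwa [Real.rpow_neg_one, ← one_div] at h1

/-- small distance -/
private lemma ta {D m v c s : ℝ} (hD : 0 ≤ D) (hm : 1 ≤ m) (hs : 1 < s) (hv : |v| ≤ 1)
    (hc : 1 + D ^ 2 / 320000 ≤ c) :
    (Real.exp (min 1 ((1 + D) ^ 2 / m ^ 2) * (1 + |v|) / 4) - 1) * c ^ (-s) ≤ 2560000 / m ^ 2 := by
  have hm0 : 0 < m := by linarith
  have hc1 : 1 ≤ c := by
    have : 0 ≤ D ^ 2 / 320000 := by positivity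
    linarith
  have h1 := exp_fac1 (q := (1 + D) ^ 2 / m ^ 2) (by positivity) hv
  have h2 := inv_le hc1 hs.le
  have h3 : min 1 ((1 + D) ^ 2 / m ^ 2) ≤ (1 + D) ^ 2 / m ^ 2 := min_le_right _ _
  have h4 : (1 + D) ^ 2 ≤ 640000 * c := by nlinarith [sq_nonneg (1 - D)]
  have h5 : 0 ≤ c ^ (-s) := Real.rpow_nonneg (by linarith) _
  have h6 : 0 ≤ (1 + D) ^ 2 / m ^ 2 := by positivity
  have hc0 : 0 < c := by linarith
  calc (Real.exp (min 1 ((1 + D) ^ 2 / m ^ 2) * (1 + |v|) / 4) - 1) * c ^ (-s)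
      ≤ (4 * ((1 + D) ^ 2 / m ^ 2)) * c ^ (-s) := mul_le_mul_of_nonneg_right (by linarith) h5
    _ ≤ (4 * ((1 + D) ^ 2 / m ^ 2)) * (1 / c) := mul_le_mul_of_nonneg_left h2 (by positivity)
    _ = 4 * (1 + D) ^ 2 / (m ^ 2 * c) := by
        field_simp
    _ ≤ 2560000 / m ^ 2 := by
        rw [div_le_div_iff₀ (by positivity) (by positivity)]
        have : 0 < m ^ 2 := by positivity
        nlinarith

/-- large distance -/
private lemma tb {D X m v c s : ℝ} (hX : 0 < X) (hXD : X ≤ D) (hs : 1 < s) (hs2 : s ≤ 2)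
    (hv : |v| ≤ 1) (hc : 1 + D ^ 2 / 320000 ≤ c) :
    (Real.exp (min 1 ((1 + D) ^ 2 / m ^ 2) * (1 + |v|) / 4) - 1) * c ^ (-s) ≤
      4 * 320000 ^ 2 * (X ^ 2) ^ (-s) := by
  have h1 := exp_fac1 (q := (1 + D) ^ 2 / m ^ 2) (by positivity) hv
  have h3 : min 1 ((1 + D) ^ 2 / m ^ 2) ≤ 1 := min_le_left _ _
  have hc1 : X ^ 2 / 320000 ≤ c := by
    have : X ^ 2 ≤ D ^ 2 := pow_le_pow_left₀ hX.le hXD 2
    linarith
  have hX2 : 0 < X ^ 2 / 320000 := by positivity
  have h5 : 0 ≤ c ^ (-s) := Real.rpow_nonneg (by linarith) _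
  have h6 : c ^ (-s) ≤ (X ^ 2 / 320000) ^ (-s) :=
    Real.rpow_le_rpow_of_nonpos hX2 hc1 (by linarith)
  have h7 : (X ^ 2 / 320000) ^ (-s) ≤ 320000 ^ 2 * (X ^ 2) ^ (-s) := by
    rw [Real.div_rpow (by positivity) (by positivity), Real.rpow_neg (by norm_num : (0 : ℝ) ≤ 320000),
      div_inv_eq_mul, mul_comm]
    apply mul_le_mul_of_nonneg_right _ (Real.rpow_nonneg (by positivity) _)
    have h8 : (320000 : ℝ) ^ s ≤ 320000 ^ (2 : ℝ) :=
      Real.rpow_le_rpow_of_exponent_le (by norm_num) hs2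
    rwa [Real.rpow_two] at h8
  calc (Real.exp (min 1 ((1 + D) ^ 2 / m ^ 2) * (1 + |v|) / 4) - 1) * c ^ (-s)
      ≤ 4 * c ^ (-s) := mul_le_mul_of_nonneg_right (by linarith) h5
    _ ≤ 4 * (320000 ^ 2 * (X ^ 2) ^ (-s)) := by linarith
    _ = 4 * 320000 ^ 2 * (X ^ 2) ^ (-s) := by ring

/-- very different moduli -/
private lemma tc {D m v c s L : ℝ} (hD : 0 ≤ D) (hs : 1 < s) (hL : 0 < L)
    (hc : 1 + D ^ 2 / 320000 ≤ c) (hc2 : Real.exp |v| / (8 * (L * 200) ^ 2) ≤ c) :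
    (Real.exp (min 1 ((1 + D) ^ 2 / m ^ 2) * (1 + |v|) / 4) - 1) * c ^ (-s) ≤
      640000 * L ^ 2 * Real.exp (-|v| / 2) := by
  have h1 := exp_fac (q := (1 + D) ^ 2 / m ^ 2) (v := v) (by positivity)
  have h3 : min 1 ((1 + D) ^ 2 / m ^ 2) ≤ 1 := min_le_left _ _
  have hc1 : 1 ≤ c := by
    have : 0 ≤ D ^ 2 / 320000 := by positivity
    linarith
  have h2 := inv_le hc1 hs.le
  have h5 : 0 ≤ c ^ (-s) := Real.rpow_nonneg (by linarith) _
  have hc0 : 0 < c := by linarith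
  have hE : 0 < Real.exp (|v| / 2) := Real.exp_pos _
  have h6 : 1 / c ≤ 320000 * L ^ 2 * Real.exp (-|v|) := by
    have h7 : Real.exp |v| ≤ c * (8 * (L * 200) ^ 2) := by
      rwa [div_le_iff₀ (by positivity)] at hc2
    rw [div_le_iff₀ hc0]
    have h8 : Real.exp (-|v|) * Real.exp |v| = 1 := by
      rw [← Real.exp_add]
      simp
    have h9 := mul_le_mul_of_nonneg_left h7 (Real.exp_pos (-|v|)).le
    rw [h8] at h9
    calc (1 : ℝ) ≤ Real.exp (-|v|) * (c * (8 * (L * 200) ^ 2)) := h9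
      _ = 320000 * L ^ 2 * Real.exp (-|v|) * c := by ring
  have e1 : Real.exp (|v| / 2) * Real.exp (-|v|) = Real.exp (-|v| / 2) := by
    rw [← Real.exp_add]
    congr 1
    ring
  calc (Real.exp (min 1 ((1 + D) ^ 2 / m ^ 2) * (1 + |v|) / 4) - 1) * c ^ (-s)
      ≤ (2 * Real.exp (|v| / 2)) * c ^ (-s) :=
        mul_le_mul_of_nonneg_right (h1.trans (by nlinarith)) h5
    _ ≤ (2 * Real.exp (|v| / 2)) * (320000 * L ^ 2 * Real.exp (-|v|)) :=
        mul_le_mul_of_nonneg_left (h2.trans h6) (by positivity)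
    _ = 640000 * L ^ 2 * (Real.exp (|v| / 2) * Real.exp (-|v|)) := by ring
    _ = 640000 * L ^ 2 * Real.exp (-|v| / 2) := by rw [e1]

/-- the abstract summation -/
private lemma sumup {m s r L U : ℝ} (hm : 1 ≤ m) (hs : 1 < s) (hs2 : s ≤ 2) (hr : 0 < r)
    (hr1 : r ≤ 1) (hL : 0 < L) (hmL : m ≤ 2 * Real.pi * r / L ^ 2) (D : ℤ → ℝ) (v : ℤ → ℝ)
    (c : ℤ → ℝ) (hD : ∀ n, 0 ≤ D n) (hv : ∀ n, v n = U - n * r)
    (hc : ∀ n, 1 + D n ^ 2 / 320000 ≤ c n)
    (hc2 : ∀ n, 1 ≤ |v n| → Real.exp |v n| / (8 * (L * 200) ^ 2) ≤ c n)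
    (hcount : ∀ X : ℝ, 0 ≤ X → {n : ℤ | D n ≤ X}.Finite ∧
      (({n : ℤ | D n ≤ X}.ncard : ℝ)) ≤ (1 + 2 * X) * (1 + 2 * X / m)) :
    ∑' n : ℤ, ENNReal.ofReal ((Real.exp (min 1 ((1 + D n) ^ 2 / m ^ 2) * (1 + |v n|) / 4) - 1) *
      c n ^ (-s)) ≤
    ENNReal.ofReal ((9 * 2560000 + 2 * (100 * 320000 ^ 2) + 8 * 640000 * (2 * Real.pi)) / (m * (s - 1))) := by
  classical
  have hm0 : 0 < m := by linarith
  have hs1 : 0 < s - 1 := by linarith
  set x : ℝ := (4 : ℝ) ^ (-s) with hx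
  have hx0 : 0 < x := Real.rpow_pos_of_pos (by norm_num) _
  set w : ℝ := 4 * x with hw
  have hw0 : 0 ≤ w := by positivity
  have hw1 : (s - 1) / 2 ≤ 1 - w := by
    have h1 : w * (4 : ℝ) ^ (s - 1) = 1 := by
      rw [hw, hx]
      have h2 : (4 : ℝ) * (4 : ℝ) ^ (-s) = (4 : ℝ) ^ (1 - s) := by
        conv_lhs => rw [← Real.rpow_one (4 : ℝ)]
        rw [Real.rpow_one, ← Real.rpow_one_add' (by norm_num) (by linarith)]
        congr 1
      rw [h2, ← Real.rpow_add (by norm_num)]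
      have h3 : 1 - s + (s - 1) = 0 := by ring
      rw [h3, Real.rpow_zero]
    have h2 : 1 + (s - 1) ≤ (4 : ℝ) ^ (s - 1) := by
      have h3 : (4 : ℝ) ^ (s - 1) = Real.exp (Real.log 4 * (s - 1)) := by
        rw [Real.rpow_def_of_pos (by norm_num)]
      have h4 : 1 ≤ Real.log 4 := by
        rw [Real.le_log_iff_exp_le (by norm_num)]
        have := Real.exp_one_lt_d9
        linarith
      rw [h3]
      have h5 := Real.add_one_le_exp (Real.log 4 * (s - 1))
      nlinarith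
    have h3 : w * (1 + (s - 1)) ≤ 1 := (mul_le_mul_of_nonneg_left h2 hw0).trans h1.le
    nlinarith
  have hwlt : w < 1 := by linarith
  -- the three families of bounds
  let T1 : ℤ → ℝ≥0∞ := fun n => if D n ≤ m then ENNReal.ofReal (2560000 / m ^ 2) else 0
  let T2 : ℕ → ℤ → ℝ≥0∞ := fun j n =>
    if D n ≤ 2 ^ (j + 1) * m then ENNReal.ofReal (4 * 320000 ^ 2 * (x ^ j / m ^ 2)) else 0
  let T3 : ℤ → ℝ≥0∞ := fun n => ENNReal.ofReal (640000 * L ^ 2 * Real.exp (-|v n| / 2))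
  have hpt : ∀ n : ℤ, ENNReal.ofReal ((Real.exp (min 1 ((1 + D n) ^ 2 / m ^ 2) * (1 + |v n|) / 4) - 1) *
      c n ^ (-s)) ≤ T1 n + (∑' j, T2 j n) + T3 n := by
    intro n
    rcases le_total 1 |v n| with h1 | h1
    · refine le_trans ?_ le_add_self
      exact ENNReal.ofReal_le_ofReal (tc (hD n) hs hL (hc n) (hc2 n h1))
    · refine le_trans ?_ le_self_add
      by_cases h2 : D n ≤ m
      · refine le_trans ?_ le_self_add
        show _ ≤ (if D n ≤ m then ENNReal.ofReal (2560000 / m ^ 2) else 0)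
        rw [if_pos h2]
        exact ENNReal.ofReal_le_ofReal (ta (hD n) hm hs h1 (hc n))
      · refine le_trans ?_ le_add_self
        push Not at h2
        have hex : ∃ j : ℕ, D n ≤ 2 ^ (j + 1) * m := by
          obtain ⟨j, hj⟩ := pow_unbounded_of_one_lt (D n) (one_lt_two : (1 : ℝ) < 2)
          refine ⟨j, hj.le.trans ?_⟩
          have h3 : (2 : ℝ) ^ j ≤ 2 ^ (j + 1) := pow_le_pow_right₀ one_le_two (Nat.le_succ j)
          have h4 : 0 ≤ (2 : ℝ) ^ (j + 1) := by positivity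
          nlinarith
        set j := Nat.find hex with hj
        have hj1 : D n ≤ 2 ^ (j + 1) * m := Nat.find_spec hex
        have hj2 : 2 ^ j * m ≤ D n := by
          rcases Nat.eq_zero_or_pos j with h0 | h0
          · rw [h0, pow_zero, one_mul]
            exact h2.le
          · have h3 := Nat.find_min hex (m := j - 1) (by omega)
            have h4 : j - 1 + 1 = j := by omega
            rw [h4] at h3
            exact (not_le.1 h3).le
        refine le_trans ?_ (ENNReal.le_tsum j)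
        show _ ≤ (if D n ≤ 2 ^ (j + 1) * m then ENNReal.ofReal (4 * 320000 ^ 2 * (x ^ j / m ^ 2)) else 0)
        rw [if_pos hj1]
        apply ENNReal.ofReal_le_ofReal
        refine (tb (m := m) (by positivity) hj2 hs hs2 h1 (hc n)).trans ?_
        apply mul_le_mul_of_nonneg_left _ (by norm_num)
        have h5 : ((2 : ℝ) ^ j * m) ^ 2 = 4 ^ j * m ^ 2 := by
          rw [mul_pow, ← pow_mul, mul_comm j 2, pow_mul]
          norm_num
        rw [h5, Real.mul_rpow (by positivity) (by positivity)]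
        have h6 : ((4 : ℝ) ^ j) ^ (-s) = x ^ j := by
          rw [hx, ← Real.rpow_natCast, ← Real.rpow_natCast, ← Real.rpow_mul (by norm_num),
            ← Real.rpow_mul (by norm_num), mul_comm]
        rw [h6, div_eq_mul_inv]
        apply mul_le_mul_of_nonneg_left _ (by positivity)
        have h7 := inv_le (c := m ^ 2) (s := s) (by nlinarith) hs.le
        rwa [one_div] at h7
  have hS1 : ∑' n, T1 n ≤ ENNReal.ofReal (9 * m * (2560000 / m ^ 2)) := by
    obtain ⟨f1, f2⟩ := hcount m hm0.le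
    refine fin_le {n : ℤ | D n ≤ m} f1 (K := 9 * m) (f2.trans ?_) (by positivity) T1 ?_ ?_
    · have : 2 * m / m = 2 := by field_simp
      rw [this]
      nlinarith
    · intro n hn
      have hn' : D n ≤ m := hn
      show (if D n ≤ m then ENNReal.ofReal (2560000 / m ^ 2) else 0) ≤ _
      rw [if_pos hn']
    · intro n hn
      have hn' : ¬ D n ≤ m := hn
      show (if D n ≤ m then ENNReal.ofReal (2560000 / m ^ 2) else 0) = _
      rw [if_neg hn']
  have hS2 : ∑' n, ∑' j, T2 j n ≤ ENNReal.ofReal (100 * 320000 ^ 2 / m / (1 - w)) := by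
    rw [ENNReal.tsum_comm]
    have hj : ∀ j : ℕ, ∑' n, T2 j n ≤ ENNReal.ofReal (100 * 320000 ^ 2 / m * w ^ j) := by
      intro j
      obtain ⟨f1, f2⟩ := hcount (2 ^ (j + 1) * m) (by positivity)
      have h1 := fin_le {n : ℤ | D n ≤ 2 ^ (j + 1) * m} f1 (K := 25 * 4 ^ j * m)
        (c := 4 * 320000 ^ 2 * (x ^ j / m ^ 2)) (f2.trans ?_) (by positivity) (T2 j) ?_ ?_
      · refine h1.trans (le_of_eq ?_)
        congr 1
        rw [hw, mul_pow]
        field_simp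
        ring
      · have e1 : 2 * (2 ^ (j + 1) * m) / m = 4 * 2 ^ j := by
          field_simp
          ring
        rw [e1]
        have e2 : (4 : ℝ) ^ j = 2 ^ j * 2 ^ j := by
          rw [← mul_pow]
          norm_num
        have e3 : (1 : ℝ) ≤ 2 ^ j := one_le_pow₀ one_le_two
        rw [e2, pow_succ]
        have e4 : 1 ≤ (2 : ℝ) ^ j * m := by nlinarith
        calc (1 + 2 * ((2 : ℝ) ^ j * 2 * m)) * (1 + 4 * 2 ^ j)
            ≤ (5 * (2 ^ j * m)) * (5 * 2 ^ j) := by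
              apply mul_le_mul (by linarith) (by linarith) (by positivity) (by positivity)
          _ = 25 * (2 ^ j * 2 ^ j) * m := by ring
      · intro n hn
        have hn' : D n ≤ 2 ^ (j + 1) * m := hn
        show (if D n ≤ 2 ^ (j + 1) * m then ENNReal.ofReal (4 * 320000 ^ 2 * (x ^ j / m ^ 2)) else 0) ≤ _
        rw [if_pos hn']
      · intro n hn
        have hn' : ¬ D n ≤ 2 ^ (j + 1) * m := hn
        show (if D n ≤ 2 ^ (j + 1) * m then ENNReal.ofReal (4 * 320000 ^ 2 * (x ^ j / m ^ 2)) else 0) = _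
        rw [if_neg hn']
    refine (ENNReal.tsum_le_tsum hj).trans (le_of_eq ?_)
    exact geo_eq (by positivity) hw0 hwlt
  have hS3 : ∑' n, T3 n ≤ ENNReal.ofReal (640000 * L ^ 2 * (8 / r)) := by
    have e1 : ∀ n, T3 n = ENNReal.ofReal (640000 * L ^ 2) *
        ENNReal.ofReal (Real.exp (-|U - n * r| / 2)) := by
      intro n
      show ENNReal.ofReal (640000 * L ^ 2 * Real.exp (-|v n| / 2)) = _
      rw [← ENNReal.ofReal_mul (by positivity), hv n]
    have e2 : ENNReal.ofReal (640000 * L ^ 2 * (8 / r)) =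
        ENNReal.ofReal (640000 * L ^ 2) * ENNReal.ofReal (8 / r) :=
      ENNReal.ofReal_mul (by positivity)
    rw [tsum_congr e1, ENNReal.tsum_mul_left, e2]
    exact mul_le_mul_right (two_le U r hr hr1) _
  refine (ENNReal.tsum_le_tsum hpt).trans ?_
  rw [ENNReal.tsum_add, ENNReal.tsum_add]
  refine (add_le_add (add_le_add hS1 hS2) hS3).trans ?_
  have hw1' : 0 < 1 - w := by linarith
  rw [← ENNReal.ofReal_add (by positivity) (by positivity),
    ← ENNReal.ofReal_add (by positivity) (by positivity)]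
  apply ENNReal.ofReal_le_ofReal
  have q1 : 9 * m * (2560000 / m ^ 2) ≤ 9 * 2560000 / (m * (s - 1)) := by
    have : 9 * m * (2560000 / m ^ 2) = 9 * 2560000 / m := by field_simp
    rw [this]
    apply div_le_div_of_nonneg_left (by norm_num) (by positivity)
    nlinarith
  have q2 : 100 * 320000 ^ 2 / m / (1 - w) ≤ 2 * (100 * 320000 ^ 2) / (m * (s - 1)) := by
    rw [div_div, div_le_div_iff₀ (by positivity) (by positivity)]
    have : m * (s - 1) ≤ m * (2 * (1 - w)) := mul_le_mul_of_nonneg_left (by linarith) hm0.le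
    nlinarith
  have q3 : 640000 * L ^ 2 * (8 / r) ≤ 8 * 640000 * (2 * Real.pi) / (m * (s - 1)) := by
    have h1 : m * L ^ 2 ≤ 2 * Real.pi * r := by
      rwa [le_div_iff₀ (by positivity)] at hmL
    have e1 : 640000 * L ^ 2 * (8 / r) = 8 * 640000 * L ^ 2 / r := by ring
    rw [e1, div_le_div_iff₀ hr (by positivity)]
    have h2 : m * L ^ 2 * (s - 1) ≤ 2 * Real.pi * r := by
      have h3 : m * L ^ 2 * (s - 1) ≤ m * L ^ 2 * 1 :=
        mul_le_mul_of_nonneg_left (by linarith) (by positivity)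
      linarith
    nlinarith
  have e : (9 * 2560000 + 2 * (100 * 320000 ^ 2) + 8 * 640000 * (2 * Real.pi)) / (m * (s - 1)) =
      9 * 2560000 / (m * (s - 1)) + 2 * (100 * 320000 ^ 2) / (m * (s - 1)) +
      8 * 640000 * (2 * Real.pi) / (m * (s - 1)) := by
    rw [add_div, add_div]
  rw [e]
  exact add_le_add (add_le_add q1 q2) q3

/-- module WSM -/
theorem hWSM (hFDM : Pool.Agent.Helper88.QT.StFDM) (hXPT : Pool.Agent.Helper88.QT.StXPT)
    (hCHF : Pool.Agent.Helper88.QT.StCHF) (hWCT : Pool.Agent.Helper88.QT.StWCT) :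
    Pool.Agent.Helper88.QT.StWSM := by
  refine ⟨9 * 2560000 + 2 * (100 * 320000 ^ 2) + 8 * 640000 * (2 * Real.pi), by positivity, ?_⟩
  intro lam m hre hlam hm hm2 s hs hs2 ξ η hξ hη
  have hl0 : lam ≠ 0 := by
    intro h
    rw [h] at hre
    simp at hre
  have hL : 0 < ‖lam‖ := norm_pos_iff.2 hl0
  have hr1 : lam.re ≤ 1 := (Complex.re_le_norm lam).trans (by linarith)
  have hcz : 2 * cz = 200 := by unfold cz; norm_num
  rw [hcz]
  have hE : ∀ n : ℤ, Complex.exp (n * lam) * η ≠ 0 := fun n =>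
    mul_ne_zero (Complex.exp_ne_zero _) hη
  obtain ⟨x1, -, -, -, -⟩ := hXPT lam hl0
  obtain ⟨y1, y2, y3⟩ := x1 200 ξ (by norm_num) (by linarith) hξ
  obtain ⟨y4, y5⟩ := y3 (by linarith)
  obtain ⟨-, c2⟩ := hCHF lam hl0
  obtain ⟨d1, -⟩ := hFDM lam hl0
  have hnorm : ∀ n : ℤ, ‖Complex.exp (n * lam) * η‖ = Real.exp (n * lam.re) * ‖η‖ := by
    intro n
    rw [norm_mul, Complex.norm_exp]
    congr 2
    simp
  have hξn : 0 < ‖ξ‖ := norm_pos_iff.2 hξ
  have hηn : 0 < ‖η‖ := norm_pos_iff.2 hη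
  have hv : ∀ n : ℤ, Real.log (‖ξ‖ / ‖Complex.exp (n * lam) * η‖) =
      Real.log (‖ξ‖ / ‖η‖) - n * lam.re := by
    intro n
    rw [hnorm, Real.log_div hξn.ne' (by positivity), Real.log_mul (Real.exp_ne_zero _) hηn.ne',
      Real.log_exp, Real.log_div hξn.ne' hηn.ne']
    ring
  have hch : ∀ n : ℤ, 1 + fd lam ξ (Complex.exp (n * lam) * η) ^ 2 / 320000 ≤
      ch (xp lam 200 ξ) (xp lam 200 (Complex.exp (n * lam) * η)) ∧
      (1 ≤ |Real.log (‖ξ‖ / ‖Complex.exp (n * lam) * η‖)| →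
        Real.exp |Real.log (‖ξ‖ / ‖Complex.exp (n * lam) * η‖)| / (8 * (‖lam‖ * 200) ^ 2) ≤
        ch (xp lam 200 ξ) (xp lam 200 (Complex.exp (n * lam) * η))) := by
    intro n
    obtain ⟨z1, z2, z3⟩ := x1 200 (Complex.exp (n * lam) * η) (by norm_num) (by linarith) (hE n)
    obtain ⟨z4, z5⟩ := z3 (by linarith)
    obtain ⟨w1, -, w3⟩ := c2 200 (by norm_num) (by linarith) _ y1 _ z1 y2 z2
    rw [y4, z4] at w1 w3
    refine ⟨?_, w3⟩
    have e1 : (8 * (200 : ℝ) ^ 2) = 320000 := by norm_num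
    rwa [e1] at w1
  exact sumup (L := ‖lam‖) (r := lam.re) (U := Real.log (‖ξ‖ / ‖η‖)) hm hs hs2 hre hr1 hL hm2
    (fun n => fd lam ξ (Complex.exp (n * lam) * η))
    (fun n => Real.log (‖ξ‖ / ‖Complex.exp (n * lam) * η‖))
    (fun n => ch (xp lam 200 ξ) (xp lam 200 (Complex.exp (n * lam) * η)))
    (fun n => (d1 ξ _ hξ (hE n)).2.1) hv (fun n => (hch n).1) (fun n => (hch n).2)
    (fun X hX => hWCT lam m hre hm hm2 ξ η hξ hη X hX)

end Pool.Agent.Helper51.QT
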